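import Mathlib

section

/-!
Unrestricted wreath products and derived series.
-/

namespace Pool.Agent.Lib.MP_5335f7_al

universe u v

open scoped commutatorElement

/-- The unrestricted regular wreath product of `N` and `R`. -/
@[ext] structure Wr (N : Type u) (R : Type v) where
  fn : R → N
  pt : R

namespace Wr
variable {N : Type u} {R : Type v} [Group N] [Group R]

instance : Mul (Wr N R) := ⟨fun a b => ⟨fun x => a.fn x * b.fn (x * a.pt), a.pt * b.pt⟩⟩
instance : One (Wr N R) := ⟨⟨fun _ => 1, 1⟩⟩
instance : Inv (Wr N R) := ⟨fun a => ⟨fun x => (a.fn (x * a.pt⁻¹))⁻¹, a.pt⁻¹⟩⟩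

@[simp] theorem mul_fn (a b : Wr N R) (x : R) : (a * b).fn x = a.fn x * b.fn (x * a.pt) := rfl
@[simp] theorem mul_pt (a b : Wr N R) : (a * b).pt = a.pt * b.pt := rfl
@[simp] theorem one_fn (x : R) : (1 : Wr N R).fn x = 1 := rfl
@[simp] theorem one_pt : (1 : Wr N R).pt = 1 := rfl
@[simp] theorem inv_fn (a : Wr N R) (x : R) : (a⁻¹).fn x = (a.fn (x * a.pt⁻¹))⁻¹ := rfl
@[simp] theorem inv_pt (a : Wr N R) : (a⁻¹).pt = a.pt⁻¹ := rfl

instance : Group (Wr N R) := Group.ofLeftAxioms
  (by
    intro a b c
    ext x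
    · simp [mul_assoc]
    · simp [mul_assoc])
  (by
    intro a
    ext x
    · simp
    · simp)
  (by
    intro a
    ext x
    · simp
    · simp)

/-- the base group -/
def base (N : Type u) (R : Type v) [Group N] [Group R] : (R → N) →* Wr N R where
  toFun φ := ⟨φ, 1⟩
  map_one' := rfl
  map_mul' φ ψ := by ext x <;> simp

/-- the top group -/
def top (N : Type u) (R : Type v) [Group N] [Group R] : R →* Wr N R where
  toFun r := ⟨fun _ => 1, r⟩
  map_one' := rfl
  map_mul' r s := by ext x <;> simp

/-- the projection -/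
def proj (N : Type u) (R : Type v) [Group N] [Group R] : Wr N R →* R where
  toFun a := a.pt
  map_one' := rfl
  map_mul' _ _ := rfl

@[simp] theorem base_fn (φ : R → N) (x : R) : (base N R φ).fn x = φ x := rfl
@[simp] theorem base_pt (φ : R → N) : (base N R φ).pt = 1 := rfl
@[simp] theorem top_fn (r x : R) : (top N R r).fn x = 1 := rfl
@[simp] theorem top_pt (r : R) : (top N R r).pt = r := rfl
@[simp] theorem proj_apply (a : Wr N R) : proj N R a = a.pt := rfl

theorem top_conj_base (r : R) (φ : R → N) :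
    top N R r * base N R φ * (top N R r)⁻¹ = base N R (fun x => φ (x * r)) := by
  ext x <;> simp

theorem ker_proj : (proj N R).ker = (base N R).range := by
  ext a
  constructor
  · intro h
    exact ⟨a.fn, by ext x; rfl; exact h.symm⟩
  · rintro ⟨φ, rfl⟩
    rfl

theorem base_injective : Function.Injective (base N R) := by
  intro φ ψ h
  funext x
  exact congrFun (congrArg Wr.fn h) x

/-- If the `l`-th derived subgroup of `R` is trivial and `N` is abelian. -/
theorem derivedSeries_of_comm (l : ℕ) (hR : derivedSeries R l = ⊥)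
    (hN : ∀ a b : N, a * b = b * a) : derivedSeries (Wr N R) (l + 1) = ⊥ := by
  have h1 : derivedSeries (Wr N R) l ≤ (proj N R).ker := by
    have := map_derivedSeries_le_derivedSeries (proj N R) l
    rw [hR] at this
    intro a ha
    have h2 : proj N R a ∈ (derivedSeries (Wr N R) l).map (proj N R) := ⟨a, ha, rfl⟩
    exact this h2
  rw [derivedSeries_succ, eq_bot_iff, Subgroup.commutator_le]
  intro a ha b hb
  have ha' := h1 ha
  have hb' := h1 hb
  rw [ker_proj] at ha' hb'
  obtain ⟨φ, rfl⟩ := ha'
  obtain ⟨ψ, rfl⟩ := hb'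
  rw [Subgroup.mem_bot, commutatorElement_eq_one_iff_mul_comm]
  ext x
  · simp [hN]
  · simp

theorem derivedSeries_pi {X : Type v} (l : ℕ) (hN : derivedSeries N l = ⊥) :
    derivedSeries (X → N) l = ⊥ := by
  rw [eq_bot_iff]
  intro φ hφ
  rw [Subgroup.mem_bot]
  funext x
  have := map_derivedSeries_le_derivedSeries (Pi.evalMonoidHom (fun _ : X => N) x) l
  rw [hN] at this
  exact this ⟨φ, hφ, rfl⟩

theorem derivedSeries_le_map_base (hR : ∀ a b : R, a * b = b * a) (l : ℕ) :
    derivedSeries (Wr N R) (l + 1) ≤ (derivedSeries (R → N) l).map (base N R) := by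
  induction l with
  | zero =>
    rw [derivedSeries_succ, Subgroup.commutator_le]
    intro a _ b _
    have : ⁅a, b⁆ ∈ (proj N R).ker := by
      rw [MonoidHom.mem_ker, map_commutatorElement, commutatorElement_eq_one_iff_mul_comm]
      exact hR _ _
    rw [ker_proj] at this
    obtain ⟨φ, hφ⟩ := this
    exact ⟨φ, by simp, hφ⟩
  | succ l ih =>
    rw [derivedSeries_succ (Wr N R) (l + 1), derivedSeries_succ (R → N) l,
      Subgroup.map_commutator]
    exact Subgroup.commutator_mono ih ih

theorem derivedSeries_of_comm_top (hR : ∀ a b : R, a * b = b * a) (l : ℕ)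
    (hN : derivedSeries N l = ⊥) : derivedSeries (Wr N R) (l + 1) = ⊥ := by
  have := derivedSeries_le_map_base (N := N) hR l
  rw [derivedSeries_pi l hN, Subgroup.map_bot] at this
  exact le_bot_iff.1 this

end Wr

theorem derivedSeries_eq_bot_of_injective {G : Type*} {H : Type*} [Group G] [Group H] (f : G →* H)
    (hf : Function.Injective f) (l : ℕ) (h : derivedSeries H l = ⊥) : derivedSeries G l = ⊥ := by
  have := map_derivedSeries_le_derivedSeries f l
  rw [h, le_bot_iff] at this
  exact (Subgroup.map_eq_bot_iff_of_injective _ hf).1 this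

theorem derivedSeries_prod {G : Type*} {H : Type*} [Group G] [Group H] (l : ℕ)
    (hG : derivedSeries G l = ⊥) (hH : derivedSeries H l = ⊥) : derivedSeries (G × H) l = ⊥ := by
  rw [eq_bot_iff]
  intro a ha
  have h1 := map_derivedSeries_le_derivedSeries (MonoidHom.fst G H) l
  have h2 := map_derivedSeries_le_derivedSeries (MonoidHom.snd G H) l
  rw [hG] at h1
  rw [hH] at h2
  have h3 : a.1 = 1 := h1 ⟨a, ha, rfl⟩
  have h4 : a.2 = 1 := h2 ⟨a, ha, rfl⟩
  exact Prod.ext h3 h4

theorem derivedSeries_eq_bot_of_le {G : Type*} [Group G] {k l : ℕ} (hkl : k ≤ l)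
    (h : derivedSeries G k = ⊥) : derivedSeries G l = ⊥ := by
  have := derivedSeries_antitone G hkl
  rw [h, le_bot_iff] at this
  exact this

theorem derivedSeries_comm {G : Type*} [Group G] (h : ∀ a b : G, a * b = b * a) {l : ℕ}
    (hl : 1 ≤ l) : derivedSeries G l = ⊥ := by
  refine derivedSeries_eq_bot_of_le hl ?_
  rw [derivedSeries_succ, eq_bot_iff, Subgroup.commutator_le]
  intro a _ b _
  rw [Subgroup.mem_bot, commutatorElement_eq_one_iff_mul_comm]
  exact h a b

end Pool.Agent.Lib.MP_5335f7_al
end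

section

/-!
The inductive construction: every finitely generated solvable group embeds in a well behaved way
into a group of the same derived length with controlled generators.
-/

namespace Pool.Agent.Lib.MP_5335f7_al

open scoped commutatorElement

/-- order of the generators: `m` or infinite (coded by `0`). -/
def ord {X : Type} (m : ℕ) (fin : X → Bool) (x : X) : ℕ := if fin x then m else 0

/-- the ambient product. -/
abbrev PP (K : Type) {X : Type} (m : ℕ) (fin : X → Bool) : Type :=
  K × K × (∀ x : X, Multiplicative (ZMod (ord m fin x)))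

/-- the distinguished elements of the ambient product. -/
def gt {K : Type} [Group K] {X : Type} [DecidableEq X] (m : ℕ) (fin : X → Bool) (g : X → K)
    (x : X) : PP K m fin :=
  (g x, if fin x then 1 else g x, Pi.mulSingle x (Multiplicative.ofAdd 1))

/-- The conclusion of the inductive construction. -/
def Good (l : ℕ) (G : Type) [Group G] : Prop :=
  ∃ (K : Type) (_ : Group K) (m : ℕ) (X : Type) (_ : Fintype X) (_ : DecidableEq X)
    (fin : X → Bool) (g : X → K) (ι : G →* PP K m fin),
    2 ≤ m ∧ derivedSeries K l = ⊥ ∧ (∀ x, fin x = true → g x ^ m = 1) ∧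
    (∀ y, (ι y).1 = 1 → y = 1) ∧
    ∀ y, ι y ∈ Subgroup.closure (Set.range (gt m fin g))

/-! ### The base case -/

theorem zmod_embed (n m : ℕ) (h : n ∣ m) (hm : m ≠ 0) :
    ∃ f : Multiplicative (ZMod n) →* Multiplicative (ZMod m), Function.Injective f := by
  obtain ⟨k, rfl⟩ := h
  have hn : n ≠ 0 := fun h => hm (by simp [h])
  have hk : k ≠ 0 := fun h => hm (by simp [h])
  have h0 : (zmultiplesHom (ZMod (n * k)) (k : ZMod (n * k))) n = 0 := by
    simp only [zmultiplesHom_apply, natCast_zsmul, nsmul_eq_mul]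
    rw [← Nat.cast_mul]
    exact ZMod.natCast_self _
  let F : ZMod n →+ ZMod (n * k) := ZMod.lift n ⟨_, h0⟩
  refine ⟨AddMonoidHom.toMultiplicative F, ?_⟩
  have hF : Function.Injective F := by
    rw [injective_iff_map_eq_zero]
    intro a ha
    obtain ⟨z, rfl⟩ := ZMod.intCast_surjective a
    have h1 : F (z : ZMod n) = ((z * k : ℤ) : ZMod (n * k)) := by
      simp only [F, ZMod.lift_coe, zmultiplesHom_apply, zsmul_eq_mul]
      push_cast; ring
    rw [h1, ZMod.intCast_zmod_eq_zero_iff_dvd] at ha
    rw [ZMod.intCast_zmod_eq_zero_iff_dvd]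
    push_cast at ha
    exact Int.dvd_of_mul_dvd_mul_right (by exact_mod_cast hk) ha
  intro a b hab
  exact hF hab

theorem good_one (G : Type) [Group G] (hfg : Group.FG G) (hG : derivedSeries G 1 = ⊥) :
    Good 1 G := by
  classical
  have hcomm : ∀ a b : G, a * b = b * a := by
    intro a b
    rw [← commutatorElement_eq_one_iff_mul_comm, ← Subgroup.mem_bot, ← hG, derivedSeries_one]
    exact Subgroup.commutator_mem_commutator (Subgroup.mem_top a) (Subgroup.mem_top b)
  let _ : CommGroup G := { (inferInstance : Group G) with mul_comm := hcomm }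
  obtain ⟨ι, j, hι, hj, p, hp, e, ⟨E⟩⟩ := CommGroup.equiv_free_prod_prod_multiplicative_zmod G
  set m : ℕ := 2 * ∏ i, p i ^ e i with hm
  have hprod : ∏ i, p i ^ e i ≠ 0 :=
    Finset.prod_ne_zero_iff.2 fun i _ => pow_ne_zero _ (hp i).ne_zero
  have hm0 : m ≠ 0 := mul_ne_zero two_ne_zero hprod
  have hm2 : 2 ≤ m := by
    have : 1 ≤ ∏ i, p i ^ e i := Nat.one_le_iff_ne_zero.2 hprod
    omega
  let X := j ⊕ ι
  let fin : X → Bool := Sum.elim (fun _ => false) (fun _ => true)
  have h1 : ∀ i : ι, ∃ f : Multiplicative (ZMod (p i ^ e i)) →*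
      Multiplicative (ZMod (ord m fin (Sum.inr i))), Function.Injective f := by
    intro i
    have h2 : p i ^ e i ∣ ∏ i, p i ^ e i :=
      Finset.dvd_prod_of_mem (fun i => p i ^ e i) (Finset.mem_univ i)
    exact zmod_embed _ m (h2.trans (Dvd.intro_left _ rfl)) hm0
  choose f hf using h1
  let f0 : ∀ i : j, Multiplicative ℤ →* Multiplicative (ZMod (ord m fin (Sum.inl i))) :=
    fun i => MonoidHom.id (Multiplicative (ZMod 0))
  have hf0 : ∀ i, Function.Injective (f0 i) := fun i a b h => h
  let K := ∀ x : X, Multiplicative (ZMod (ord m fin x))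
  let a : G →* K := MonoidHom.pi fun x =>
    match x with
    | Sum.inl i => (f0 i).comp
        ((Pi.evalMonoidHom _ i).comp ((MonoidHom.fst _ _).comp E.toMonoidHom))
    | Sum.inr i => (f i).comp
        ((Pi.evalMonoidHom _ i).comp ((MonoidHom.snd _ _).comp E.toMonoidHom))
  have ha0 : ∀ y i, a y (Sum.inl i) = f0 i ((E y).1 i) := fun y i => rfl
  have ha1 : ∀ y i, a y (Sum.inr i) = f i ((E y).2 i) := fun y i => rfl
  have ha : ∀ y, a y = 1 → y = 1 := by
    intro y hy
    apply E.injective
    rw [map_one]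
    apply Prod.ext
    · funext i
      apply hf0 i
      rw [← ha0, hy]
      exact (map_one (f0 i)).symm
    · funext i
      apply hf i
      rw [← ha1, hy]
      exact (map_one (f i)).symm
  let g : X → K := fun x => Pi.mulSingle x (Multiplicative.ofAdd 1)
  let pr : K →* K := MonoidHom.pi fun x => if fin x then 1 else Pi.evalMonoidHom _ x
  let Δ : K →* PP K m fin := (MonoidHom.id K).prod (pr.prod (MonoidHom.id K))
  have hΔ : ∀ x, Δ (g x) = gt m fin g x := by
    intro x
    refine Prod.ext rfl (Prod.ext ?_ rfl)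
    show pr (g x) = if fin x then 1 else g x
    funext x'
    show (if fin x' then (1 : K →* Multiplicative (ZMod (ord m fin x')))
      else Pi.evalMonoidHom _ x') (g x) = _
    by_cases hx : x' = x
    · subst hx
      split_ifs <;> rfl
    · have h2 : g x x' = 1 := Pi.mulSingle_eq_of_ne hx _
      split_ifs
      · rfl
      · rw [h2]; rfl
      · rw [Pi.evalMonoidHom_apply, h2]; rfl
      · rfl
  have hall : ∀ b : K, Δ b ∈ Subgroup.closure (Set.range (gt m fin g)) := by
    intro b
    rw [← Finset.univ_prod_mulSingle b, map_prod]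
    refine Subgroup.prod_mem _ fun x _ => ?_
    have : Pi.mulSingle x (b x) = (g x) ^ ((b x).toAdd.cast : ℤ) := by
      simp only [g]
      rw [← Pi.mulSingle_zpow]
      congr 1
      apply Multiplicative.toAdd.injective
      simp
    rw [this, map_zpow, hΔ]
    have h3 : gt m fin g x ∈ Subgroup.closure (Set.range (gt m fin g)) :=
      Subgroup.subset_closure ⟨x, rfl⟩
    exact Subgroup.zpow_mem _ h3 _
  refine ⟨K, inferInstance, m, X, inferInstance, inferInstance, fin, g, Δ.comp a, hm2, ?_, ?_, ?_,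
    ?_⟩
  · exact derivedSeries_comm (fun a b => mul_comm a b) le_rfl
  · intro x hx
    simp only [g]
    rw [← Pi.mulSingle_pow]
    have : (Multiplicative.ofAdd (1 : ZMod (ord m fin x))) ^ m = 1 := by
      apply Multiplicative.toAdd.injective
      have : ord m fin x = m := by simp [ord, hx]
      rw [toAdd_pow, toAdd_ofAdd, toAdd_one, nsmul_one]
      rw [this]
      exact ZMod.natCast_self m
    rw [this, Pi.mulSingle_one]
  · intro y hy
    exact ha y hy
  · intro y
    exact hall _

end Pool.Agent.Lib.MP_5335f7_al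
end

section

/-!
The inductive step.
-/

namespace Pool.Agent.Lib.MP_5335f7_al

open scoped commutatorElement

section hat
variable {Q R N : Type} [Group Q] [Group R] [Group N] (emb : Q →* R)

/-- extension of a function by one -/
noncomputable def hat (ψ : Q → N) : R → N := Function.extend emb ψ (fun _ => 1)

variable {emb}

theorem hat_emb (hemb : Function.Injective emb) (ψ : Q → N) (q : Q) : hat emb ψ (emb q) = ψ q :=
  hemb.extend_apply _ _ _

theorem hat_not (ψ : Q → N) (x : R) (hx : ∀ q, emb q ≠ x) : hat emb ψ x = 1 :=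
  Function.extend_apply' _ _ _ (by rintro ⟨q, hq⟩; exact hx q hq)

theorem hat_mul (hemb : Function.Injective emb) (ψ χ : Q → N) (x : R) :
    hat emb (fun q => ψ q * χ q) x = hat emb ψ x * hat emb χ x := by
  by_cases hx : ∃ q, emb q = x
  · obtain ⟨q, rfl⟩ := hx
    simp only [hat_emb hemb]
  · have hx' : ∀ q, emb q ≠ x := fun q hq => hx ⟨q, hq⟩
    simp only [hat_not _ x hx', mul_one]

theorem hat_shift (hemb : Function.Injective emb) (ψ : Q → N) (r : Q) (x : R) :
    hat emb (fun q => ψ (q * r)) x = hat emb ψ (x * emb r) := by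
  by_cases hx : ∃ q, emb q = x
  · obtain ⟨q, rfl⟩ := hx
    rw [← map_mul, hat_emb hemb, hat_emb hemb]
  · have hx' : ∀ q, emb q ≠ x := fun q hq => hx ⟨q, hq⟩
    have hx'' : ∀ q, emb q ≠ x * emb r := by
      intro q hq
      apply hx
      refine ⟨q * r⁻¹, ?_⟩
      rw [map_mul, hq, map_inv]; simp
    rw [hat_not _ x hx', hat_not _ _ hx'']

end hat

theorem aux_comm_one {K : Type} [Group K] (c : K) : 1 = c * 1 * c⁻¹ * 1⁻¹ := by simp

theorem good_succ (l : ℕ) (hl : 1 ≤ l)
    (IH : ∀ (Q : Type) [Group Q], Group.FG Q → derivedSeries Q l = ⊥ → Good l Q)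
    (G : Type) [Group G] (hfg : Group.FG G) (hG : derivedSeries G (l + 1) = ⊥) :
    Good (l + 1) G := by
  classical
  let N : Subgroup G := derivedSeries G l
  have hNc : ∀ a b : N, a * b = b * a := by
    rintro ⟨a, ha⟩ ⟨b, hb⟩
    apply Subtype.ext
    show a * b = b * a
    rw [← commutatorElement_eq_one_iff_mul_comm, ← Subgroup.mem_bot, ← hG, derivedSeries_succ]
    exact Subgroup.commutator_mem_commutator ha hb
  have hQ : derivedSeries (G ⧸ N) l = ⊥ := by
    rw [← map_derivedSeries_eq (QuotientGroup.mk'_surjective N) l]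
    rw [Subgroup.map_eq_bot_iff, QuotientGroup.ker_mk']
  obtain ⟨KQ, _, m, X, _, _, fin, g, ι, hm2, hKQ, hord, hinj, hcl⟩ :=
    IH (G ⧸ N) (Group.fg_of_surjective (QuotientGroup.mk'_surjective N)) hQ
  -- the Kaloujnine and Krasner cocycle
  let s : G ⧸ N → G := Quotient.out
  have hs : ∀ q, ((s q : G) : G ⧸ N) = q := fun q => QuotientGroup.out_eq' q
  let φ : G → (G ⧸ N) → N := fun y q => ⟨s q * y * (s (q * (y : G ⧸ N)))⁻¹, by
    rw [← QuotientGroup.eq_one_iff]
    rw [QuotientGroup.mk_mul, QuotientGroup.mk_mul, QuotientGroup.mk_inv, hs, hs]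
    group⟩
  have hφ : ∀ y z q, φ (y * z) q = φ y q * φ z (q * (y : G ⧸ N)) := by
    intro y z q
    apply Subtype.ext
    show s q * (y * z) * (s (q * ((y * z : G) : G ⧸ N)))⁻¹ =
      s q * y * (s (q * (y : G ⧸ N)))⁻¹ *
        (s (q * (y : G ⧸ N)) * z * (s (q * (y : G ⧸ N) * (z : G ⧸ N)))⁻¹)
    rw [QuotientGroup.mk_mul, ← mul_assoc q]
    group
  -- the group `R`
  let R := KQ × Multiplicative (ZMod m)
  let σ : R := (1, Multiplicative.ofAdd 1)
  let emb : (G ⧸ N) →* R := ((MonoidHom.fst _ _).comp ι).prod 1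
  have hembσ : ∀ q, emb q * σ = σ * emb q := by
    intro q
    apply Prod.ext
    · show (ι q).1 * 1 = 1 * (ι q).1
      simp
    · exact mul_comm _ _
  have hemb : Function.Injective emb := by
    rw [injective_iff_map_eq_one]
    intro q hq
    exact hinj q (congrArg Prod.fst hq)
  have hσ : ∀ q q' : G ⧸ N, emb q ≠ emb q' * σ := by
    intro q q' h
    have h1 : (1 : Multiplicative (ZMod m)) = 1 * Multiplicative.ofAdd 1 := congrArg Prod.snd h
    rw [one_mul] at h1
    have h2 : (0 : ZMod m) = 1 := congrArg Multiplicative.toAdd h1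
    have : Fact (1 < m) := ⟨hm2⟩
    exact zero_ne_one h2
  let ψ : G → R → N := fun y x => hat emb (φ y) x * (hat emb (φ y) (x * σ))⁻¹
  have hψ : ∀ y z x, ψ (y * z) x = ψ y x * ψ z (x * emb (y : G ⧸ N)) := by
    intro y z x
    have h1 : ∀ x, hat emb (φ (y * z)) x = hat emb (φ y) x * hat emb (φ z) (x * emb (y : G ⧸ N)) := by
      intro x
      rw [← hat_shift hemb, ← hat_mul hemb]
      congr 1
      funext q
      exact hφ y z q
    simp only [ψ]
    rw [h1, h1, mul_assoc x σ, ← hembσ, ← mul_assoc x]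
    rw [mul_inv_rev]
    generalize hat emb (φ y) x = a
    generalize hat emb (φ z) (x * emb (y : G ⧸ N)) = b
    generalize (hat emb (φ z) (x * emb (y : G ⧸ N) * σ))⁻¹ = c
    generalize (hat emb (φ y) (x * σ))⁻¹ = d
    rw [mul_assoc, mul_assoc, hNc b (c * d), hNc c d, mul_assoc, hNc b c]
  let K := Wr N R
  let ι1 : G →* K :=
    { toFun := fun y => ⟨ψ y, emb (y : G ⧸ N)⟩
      map_one' := by
        have h1 : ψ 1 = fun _ => 1 := by
          funext x
          have := hψ 1 1 x
          rw [mul_one] at this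
          rw [QuotientGroup.mk_one, map_one, mul_one] at this
          exact left_eq_mul.1 this
        apply Wr.ext
        · exact h1
        · show emb ((1 : G) : G ⧸ N) = 1
          rw [QuotientGroup.mk_one, map_one]
      map_mul' := by
        intro y z
        apply Wr.ext
        · funext x
          exact hψ y z x
        · show emb ((y * z : G) : G ⧸ N) = emb (y : G ⧸ N) * emb (z : G ⧸ N)
          rw [QuotientGroup.mk_mul, map_mul] }
  -- the generating set
  obtain ⟨n, S, -, hS⟩ := (Group.fg_iff'.1 hfg)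
  let X' := X ⊕ ({b // b ∈ S} ⊕ Unit)
  let fin' : X' → Bool := Sum.elim fin (Sum.elim (fun _ => false) (fun _ => true))
  let g' : X' → K := Sum.elim (fun x => Wr.top N R (g x, 1))
    (Sum.elim (fun b => Wr.base N R (hat emb (φ b.1))) (fun _ => Wr.top N R σ))
  -- the map `Θ`
  let ext : (∀ x : X, Multiplicative (ZMod (ord m fin x))) →*
      (∀ x : X', Multiplicative (ZMod (ord m fin' x))) := MonoidHom.pi fun x =>
    match x with
    | Sum.inl x => Pi.evalMonoidHom _ x
    | Sum.inr _ => 1
  let em : KQ →* K := (Wr.top N R).comp (MonoidHom.inl KQ (Multiplicative (ZMod m)))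
  let Θ : PP KQ m fin →* PP K m fin' := MonoidHom.prodMap em (MonoidHom.prodMap em ext)
  have hΘ : ∀ x, Θ (gt m fin g x) = gt m fin' g' (Sum.inl x) := by
    intro x
    refine Prod.ext rfl (Prod.ext ?_ ?_)
    · show em (if fin x then 1 else g x) = if fin x then 1 else em (g x)
      split_ifs
      · exact map_one em
      · rfl
    · show ext (Pi.mulSingle x (Multiplicative.ofAdd 1)) = Pi.mulSingle (Sum.inl x) (Multiplicative.ofAdd 1)
      funext x'
      rcases x' with x' | x'
      · show (Pi.mulSingle x (Multiplicative.ofAdd 1) : ∀ x : X, Multiplicative (ZMod (ord m fin x))) x' = _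
        by_cases hx : x' = x
        · subst hx
          rw [Pi.mulSingle_eq_same, Pi.mulSingle_eq_same]; rfl
        · rw [Pi.mulSingle_eq_of_ne hx, Pi.mulSingle_eq_of_ne (fun h => hx (Sum.inl_injective h))]
          rfl
      · rw [Pi.mulSingle_eq_of_ne (by simp)]
        rfl
  have hΘcl : ∀ p ∈ Subgroup.closure (Set.range (gt m fin g)),
      Θ p ∈ Subgroup.closure (Set.range (gt m fin' g')) := by
    intro p hp
    have h1 : Subgroup.closure (Set.range (gt m fin g)) ≤
        (Subgroup.closure (Set.range (gt m fin' g'))).comap Θ := by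
      rw [Subgroup.closure_le]
      rintro _ ⟨x, rfl⟩
      show Θ (gt m fin g x) ∈ Subgroup.closure (Set.range (gt m fin' g'))
      rw [hΘ]
      exact Subgroup.subset_closure ⟨_, rfl⟩
    exact h1 hp
  let ι' : G →* PP K m fin' :=
    ι1.prod ((MonoidHom.snd _ _).comp (Θ.comp (ι.comp (QuotientGroup.mk' N))))
  have hι' : ∀ y, ι' y = (Wr.base N R (ψ y), 1) * Θ (ι (y : G ⧸ N)) := by
    intro y
    refine Prod.ext ?_ ?_
    · show ι1 y = Wr.base N R (ψ y) * Wr.top N R ((ι (y : G ⧸ N)).1, 1)
      apply Wr.ext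
      · funext x
        show ψ y x = ψ y x * 1
        rw [mul_one]
      · show emb (y : G ⧸ N) = 1 * ((ι (y : G ⧸ N)).1, 1)
        rw [one_mul]; rfl
    · show (Θ (ι (y : G ⧸ N))).2 = 1 * (Θ (ι (y : G ⧸ N))).2
      rw [one_mul]
  have hcomm : ∀ b : {b // b ∈ S}, ((Wr.base N R (ψ b.1), 1) : PP K m fin') =
      ⁅gt m fin' g' (Sum.inr (Sum.inl b)), gt m fin' g' (Sum.inr (Sum.inr ()))⁆ := by
    intro b
    rw [commutatorElement_def]
    refine Prod.ext ?_ (Prod.ext ?_ ?_)
    · show Wr.base N R (ψ b.1) = Wr.base N R (hat emb (φ b.1)) * Wr.top N R σ *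
        (Wr.base N R (hat emb (φ b.1)))⁻¹ * (Wr.top N R σ)⁻¹
      apply Wr.ext
      · funext x
        simp [ψ]
      · simp
    · exact aux_comm_one (Wr.base N R (hat emb (φ b.1)))
    · show 1 = (gt m fin' g' (Sum.inr (Sum.inl b))).2.2 * (gt m fin' g' (Sum.inr (Sum.inr ()))).2.2 *
        (gt m fin' g' (Sum.inr (Sum.inl b))).2.2⁻¹ * (gt m fin' g' (Sum.inr (Sum.inr ()))).2.2⁻¹
      rw [mul_comm (gt m fin' g' (Sum.inr (Sum.inl b))).2.2]
      group
  refine ⟨K, inferInstance, m, X', inferInstance, inferInstance, fin', g', ι', hm2, ?_, ?_, ?_, ?_⟩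
  · refine Wr.derivedSeries_of_comm l ?_ hNc
    exact derivedSeries_prod l hKQ (derivedSeries_comm (fun a b => mul_comm a b) hl)
  · rintro (x | b | u) hx
    · show (Wr.top N R (g x, 1)) ^ m = 1
      rw [← map_pow]
      have : ((g x, 1) : R) ^ m = 1 := by
        refine Prod.ext ?_ ?_
        · exact hord x hx
        · exact one_pow m
      rw [this, map_one]
    · exact absurd hx (by simp [fin'])
    · show (Wr.top N R σ) ^ m = 1
      rw [← map_pow]
      have : σ ^ m = 1 := by
        refine Prod.ext ?_ ?_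
        · exact one_pow m
        · show (Multiplicative.ofAdd (1 : ZMod m)) ^ m = 1
          apply Multiplicative.toAdd.injective
          rw [toAdd_pow, toAdd_ofAdd, toAdd_one, nsmul_one]
          exact ZMod.natCast_self m
      rw [this, map_one]
  · intro y hy
    have hy' : ι1 y = 1 := hy
    have h1 : emb (y : G ⧸ N) = 1 := congrArg Wr.pt hy'
    have h2 : (y : G ⧸ N) = 1 := hemb (by rw [h1, map_one])
    have h3 : ψ y (emb 1) = 1 := congrFun (congrArg Wr.fn hy') (emb 1)
    simp only [ψ] at h3
    rw [hat_emb hemb, hat_not _ (emb 1 * σ) (fun q => hσ q 1), inv_one, mul_one] at h3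
    have h4 : s 1 * y * (s (1 * (y : G ⧸ N)))⁻¹ = 1 := congrArg Subtype.val h3
    rw [h2, mul_one] at h4
    have h5 : y = (s 1)⁻¹ * (s 1 * y * (s 1)⁻¹) * s 1 := by group
    rw [h5, h4]; simp
  · have h1 : (⊤ : Subgroup G) ≤ (Subgroup.closure (Set.range (gt m fin' g'))).comap ι' := by
      rw [← hS, Subgroup.closure_le]
      intro y hy
      show ι' y ∈ Subgroup.closure (Set.range (gt m fin' g'))
      rw [hι']
      refine Subgroup.mul_mem _ ?_ (hΘcl _ (hcl _))
      have := hcomm ⟨y, hy⟩
      rw [this]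
      have h2 := Subgroup.commutator_mem_commutator
        (Subgroup.subset_closure (k := Set.range (gt m fin' g')) ⟨Sum.inr (Sum.inl ⟨y, hy⟩), rfl⟩)
        (Subgroup.subset_closure (k := Set.range (gt m fin' g')) ⟨Sum.inr (Sum.inr ()), rfl⟩)
      exact Subgroup.commutator_le_self _ h2
    intro y
    exact h1 (Subgroup.mem_top y)

/-- Every finitely generated solvable group is good. -/
theorem good_of_fg (l : ℕ) (hl : 1 ≤ l) : ∀ (G : Type) [Group G], Group.FG G →
    derivedSeries G l = ⊥ → Good l G := by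
  induction l, hl using Nat.le_induction with
  | base => intro G _ hfg hG; exact good_one G hfg hG
  | succ l hl ih => intro G _ hfg hG; exact good_succ l hl ih G hfg hG

end Pool.Agent.Lib.MP_5335f7_al
end

section

/-!
Embedding of a good group into a two generated group.
-/

namespace Pool.Agent.Lib.MP_5335f7_al

open scoped commutatorElement

theorem pow2_sidon (a : ℕ) : ∀ b c d : ℕ, 2 ^ a + 2 ^ b = 2 ^ c + 2 ^ d →
    (a = c ∧ b = d) ∨ (a = d ∧ b = c) := by
  induction a with
  | zero =>
    intro b c d h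
    rcases b with _ | b <;> rcases c with _ | c <;> rcases d with _ | d
    · simp
    · have := Nat.one_le_two_pow (n := d); rw [pow_succ] at h; simp at h; omega
    · have := Nat.one_le_two_pow (n := c); rw [pow_succ] at h; simp at h
    · have := Nat.one_le_two_pow (n := c); have := Nat.one_le_two_pow (n := d)
      rw [pow_succ, pow_succ] at h; simp at h; omega
    · have := Nat.one_le_two_pow (n := b); rw [pow_succ] at h; simp at h; omega
    · left
      refine ⟨rfl, ?_⟩
      have h2 : 2 ^ (b + 1) = 2 ^ (d + 1) := by simpa using h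
      exact Nat.pow_right_injective le_rfl h2
    · right
      refine ⟨rfl, ?_⟩
      have h2 : 2 ^ (b + 1) = 2 ^ (c + 1) := by
        have : 2 ^ 0 + 2 ^ (b + 1) = 2 ^ 0 + 2 ^ (c + 1) := by rw [h]; ring
        simpa using this
      exact Nat.pow_right_injective le_rfl h2
    · exfalso
      have h2 : (2 ^ 0 + 2 ^ (b + 1)) % 2 = (2 ^ (c + 1) + 2 ^ (d + 1)) % 2 := by rw [h]
      rw [pow_succ, pow_succ, pow_succ] at h2; omega
  | succ a ih =>
    intro b c d h
    rcases b with _ | b <;> rcases c with _ | c <;> rcases d with _ | d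
    · exfalso
      have := Nat.one_le_two_pow (n := a)
      rw [pow_succ, pow_zero] at h; omega
    · right
      refine ⟨?_, rfl⟩
      have h2 : 2 ^ (a + 1) = 2 ^ (d + 1) := by
        have : 2 ^ 0 + 2 ^ (a + 1) = 2 ^ 0 + 2 ^ (d + 1) := by rw [← h]; ring
        simpa using this
      exact Nat.pow_right_injective le_rfl h2
    · left
      refine ⟨?_, rfl⟩
      have h2 : 2 ^ (a + 1) = 2 ^ (c + 1) := by
        have : 2 ^ (a + 1) + 2 ^ 0 = 2 ^ (c + 1) + 2 ^ 0 := h
        simpa using this
      exact Nat.pow_right_injective le_rfl h2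
    · exfalso
      rw [pow_succ, pow_succ, pow_succ, pow_zero] at h; omega
    · exfalso
      have := Nat.one_le_two_pow (n := a); have := Nat.one_le_two_pow (n := b)
      rw [pow_succ, pow_succ, pow_zero] at h; omega
    · exfalso
      rw [pow_succ, pow_succ, pow_succ, pow_zero] at h; omega
    · exfalso
      rw [pow_succ, pow_succ, pow_succ, pow_zero] at h; omega
    · have h2 : 2 ^ a + 2 ^ b = 2 ^ c + 2 ^ d := by
        rw [pow_succ, pow_succ, pow_succ, pow_succ] at h; omega
      rcases ih b c d h2 with ⟨rfl, rfl⟩ | ⟨rfl, rfl⟩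
      · left; exact ⟨rfl, rfl⟩
      · right; exact ⟨rfl, rfl⟩

theorem exists_sidon (X : Type) [Fintype X] : ∃ (n : X → ℤ) (D : ℤ), 0 < D ∧
    (∀ x y, D ∣ n x - n y → x = y) ∧
    (∀ x x' y y', x ≠ x' → D ∣ (n x - n x') - (n y - n y') → x = y) ∧
    (∀ x y, ¬ D ∣ n x + 1 - n y) := by
  let e := Fintype.equivFin X
  let N := Fintype.card X
  have hlt : ∀ x, 2 ^ ((e x : ℕ) + 1) ≤ 2 ^ N := fun x =>
    Nat.pow_le_pow_right (by norm_num) (e x).2
  have hinj : ∀ x y, (2 : ℤ) ^ ((e x : ℕ) + 1) = 2 ^ ((e y : ℕ) + 1) → x = y := by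
    intro x y h
    have h1 : 2 ^ ((e x : ℕ) + 1) = 2 ^ ((e y : ℕ) + 1) := by exact_mod_cast h
    have h2 := Nat.pow_right_injective le_rfl h1
    have h3 : (e x : ℕ) = e y := by simpa using h2
    exact e.injective (Fin.ext h3)
  have hlt' : ∀ x, (2 : ℤ) ^ ((e x : ℕ) + 1) ≤ 2 ^ N := fun x => by exact_mod_cast hlt x
  have hpos : ∀ x, (0 : ℤ) < (2 : ℤ) ^ ((e x : ℕ) + 1) := fun x => by positivity
  have hN : (0 : ℤ) < 2 ^ N := by positivity
  refine ⟨fun x => 2 ^ ((e x : ℕ) + 1), 2 ^ (N + 2), by positivity, ?_, ?_, ?_⟩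
  · intro x y h
    have h0 : (2 : ℤ) ^ ((e x : ℕ) + 1) - 2 ^ ((e y : ℕ) + 1) = 0 := by
      refine Int.eq_zero_of_abs_lt_dvd h ?_
      have := hlt' x; have := hlt' y; have := hpos x; have := hpos y
      rw [abs_lt, pow_add]
      constructor <;> nlinarith
    exact hinj x y (by linarith)
  · intro x x' y y' hxx h
    have h0 : ((2 : ℤ) ^ ((e x : ℕ) + 1) - 2 ^ ((e x' : ℕ) + 1)) -
        (2 ^ ((e y : ℕ) + 1) - 2 ^ ((e y' : ℕ) + 1)) = 0 := by
      refine Int.eq_zero_of_abs_lt_dvd h ?_
      have := hlt' x; have := hlt' y; have := hpos x; have := hpos y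
      have := hlt' x'; have := hlt' y'; have := hpos x'; have := hpos y'
      rw [abs_lt, pow_add]
      constructor <;> nlinarith
    have h1 : 2 ^ ((e x : ℕ) + 1) + 2 ^ ((e y' : ℕ) + 1) =
        2 ^ ((e y : ℕ) + 1) + 2 ^ ((e x' : ℕ) + 1) := by
      have : ((2 : ℤ) ^ ((e x : ℕ) + 1) + 2 ^ ((e y' : ℕ) + 1)) =
        2 ^ ((e y : ℕ) + 1) + 2 ^ ((e x' : ℕ) + 1) := by linarith
      exact_mod_cast this
    rcases pow2_sidon _ _ _ _ h1 with ⟨h2, _⟩ | ⟨h2, _⟩
    · have h3 : (e x : ℕ) = e y := by omega
      exact e.injective (Fin.ext h3)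
    · exfalso
      apply hxx
      have h3 : (e x : ℕ) = e x' := by omega
      exact e.injective (Fin.ext h3)
  · intro x y h
    have h2 : (2 : ℤ) ∣ 2 ^ (N + 2) := dvd_pow_self _ (by omega)
    have h3 : (2 : ℤ) ∣ 2 ^ ((e x : ℕ) + 1) + 1 - 2 ^ ((e y : ℕ) + 1) := h2.trans h
    have h4 : (2 : ℤ) ∣ 2 ^ ((e x : ℕ) + 1) := dvd_pow_self _ (by omega)
    have h5 : (2 : ℤ) ∣ 2 ^ ((e y : ℕ) + 1) := dvd_pow_self _ (by omega)
    generalize (2 : ℤ) ^ ((e x : ℕ) + 1) = u at *
    generalize (2 : ℤ) ^ ((e y : ℕ) + 1) = v at *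
    omega

theorem exists_powHom {K : Type} [Group K] (n : ℕ) (u : K) (hu : u ^ n = 1) :
    ∃ f : Multiplicative (ZMod n) →* K, f (Multiplicative.ofAdd 1) = u := by
  have h0 : (zmultiplesHom (Additive K) (Additive.ofMul u)) n = 0 := by
    rw [zmultiplesHom_apply, natCast_zsmul, ← ofMul_pow, hu]
    rfl
  let F : ZMod n →+ Additive K := ZMod.lift n ⟨_, h0⟩
  refine ⟨AddMonoidHom.toMultiplicativeLeft F, ?_⟩
  have h1 : F 1 = Additive.ofMul u := by
    have := ZMod.lift_coe n ⟨(zmultiplesHom (Additive K) (Additive.ofMul u)), h0⟩ 1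
    simpa using this
  show Additive.toMul (F 1) = u
  rw [h1]; rfl

end Pool.Agent.Lib.MP_5335f7_al
end

section

/-!
Embedding of a good group into a two generated group.
-/

namespace Pool.Agent.Lib.MP_5335f7_al

open scoped commutatorElement

section ff

variable {K : Type} [Group K] {X : Type} (n : X → ℤ) (D : ℤ) (fin : X → Bool) (g : X → K)

open Classical in
/-- the main function -/
noncomputable def ff (k : ℤ) : K :=
  if h : ∃ x, D ∣ k - n x ∧ (fin x = true → n x ≤ k) then g h.choose else 1

theorem ff_of (hinj : ∀ x y, D ∣ n x - n y → x = y) (x : X) (k : ℤ) (h : D ∣ k - n x)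
    (h' : fin x = true → n x ≤ k) : ff n D fin g k = g x := by
  have hex : ∃ x, D ∣ k - n x ∧ (fin x = true → n x ≤ k) := ⟨x, h, h'⟩
  unfold ff
  rw [dif_pos hex]
  have h1 := hex.choose_spec.1
  have : hex.choose = x := by
    apply hinj
    have h2 := dvd_sub h h1
    have h3 : k - n x - (k - n hex.choose) = n hex.choose - n x := by ring
    rwa [h3] at h2
  rw [this]

theorem ff_not (k : ℤ) (h : ∀ x, D ∣ k - n x → ¬ (fin x = true → n x ≤ k)) :
    ff n D fin g k = 1 := by
  unfold ff
  rw [dif_neg]
  rintro ⟨x, h1, h2⟩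
  exact h x h1 h2

theorem ff_ne (k : ℤ) (h : ff n D fin g k ≠ 1) : ∃ x, D ∣ k - n x := by
  by_contra hcon
  push Not at hcon
  exact h (ff_not n D fin g k fun x hx => absurd hx (hcon x))

theorem ff_cases (hinj : ∀ x y, D ∣ n x - n y → x = y) (x : X) (k : ℤ) (h : D ∣ k - n x) :
    ff n D fin g k = g x ∨ (fin x = true ∧ ff n D fin g k = 1) := by
  by_cases h' : fin x = true → n x ≤ k
  · left; exact ff_of n D fin g hinj x k h h'
  · right
    push Not at h'
    refine ⟨h'.1, ?_⟩
    apply ff_not
    intro y hy hy'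
    have : y = x := by
      apply hinj
      have h2 := dvd_sub h hy
      have h3 : k - n x - (k - n y) = n y - n x := by ring
      rwa [h3] at h2
    subst this
    exact absurd (hy' h'.1) (not_le.2 h'.2)

/-- the functions of the base group. -/
noncomputable def FF (x : X) (c : ℤ) : K :=
  if fin x then ff n D fin g (c + n x) * (ff n D fin g (c + n x - D))⁻¹
  else ff n D fin g (c + n x)

theorem FF_zero (hinj : ∀ x y, D ∣ n x - n y → x = y) (hD : 0 < D) (x : X) :
    FF n D fin g x 0 = g x := by
  unfold FF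
  have h1 : ff n D fin g (0 + n x) = g x :=
    ff_of n D fin g hinj x _ (by simp) (fun _ => by simp)
  split_ifs with hx
  · rw [h1]
    have h2 : ff n D fin g (0 + n x - D) = 1 := by
      apply ff_not
      intro y hy hy'
      have : y = x := by
        apply hinj
        have h2 : D ∣ (-1) * (0 + n x - D - n y) - D := dvd_sub (Dvd.dvd.mul_left hy _) dvd_rfl
        have h3 : (-1) * (0 + n x - D - n y) - D = n y - n x := by ring
        rwa [h3] at h2
      subst this
      have := hy' hx
      omega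
    rw [h2]; simp
  · exact h1

theorem FF_dvd (hinj : ∀ x y, D ∣ n x - n y → x = y) (hD : 0 < D) (x : X) (c : ℤ) (hc : c ≠ 0)
    (hDc : D ∣ c) : FF n D fin g x c = if fin x then 1 else g x := by
  unfold FF
  split_ifs with hx
  · obtain ⟨j, rfl⟩ := hDc
    have hj : j ≠ 0 := fun h => hc (by rw [h, mul_zero])
    rcases lt_or_gt_of_ne hj with hj | hj
    · have hneg : D * j < 0 := by nlinarith
      have key : ∀ k, k < n x → ff n D fin g k = 1 ∨ ¬ D ∣ k - n x := by
        intro k hk
        by_cases hd : D ∣ k - n x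
        · left
          apply ff_not
          intro y hy hy'
          have : y = x := by
            apply hinj
            have h2 := dvd_sub hd hy
            have h3 : k - n x - (k - n y) = n y - n x := by ring
            rwa [h3] at h2
          subst this
          have := hy' hx
          omega
        · right; exact hd
      have h1 : ff n D fin g (D * j + n x) = 1 := by
        rcases key (D * j + n x) (by omega) with h | h
        · exact h
        · exfalso; apply h; ring_nf; exact Dvd.intro _ rfl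
      have h2 : ff n D fin g (D * j + n x - D) = 1 := by
        rcases key (D * j + n x - D) (by omega) with h | h
        · exact h
        · exfalso; apply h
          have : D * j + n x - D - n x = D * (j - 1) := by ring
          rw [this]; exact Dvd.intro _ rfl
      rw [h1, h2]; simp
    · have hj1 : 1 ≤ j := hj
      have hpos : D ≤ D * j := by nlinarith
      have h1 : ff n D fin g (D * j + n x) = g x := by
        refine ff_of n D fin g hinj x _ ?_ (fun _ => by omega)
        ring_nf; exact Dvd.intro _ rfl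
      have h2 : ff n D fin g (D * j + n x - D) = g x := by
        refine ff_of n D fin g hinj x _ ?_ (fun _ => by omega)
        have : D * j + n x - D - n x = D * (j - 1) := by ring
        rw [this]; exact Dvd.intro _ rfl
      rw [h1, h2]; simp
  · refine ff_of n D fin g hinj x _ ?_ (fun h => absurd h hx)
    simpa using hDc

theorem FF_ne (x : X) (c : ℤ) (h : FF n D fin g x c ≠ 1) : ∃ y, D ∣ c + n x - n y := by
  unfold FF at h
  split_ifs at h with hx
  · by_cases h1 : ff n D fin g (c + n x) = 1
    · by_cases h2 : ff n D fin g (c + n x - D) = 1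
      · exact absurd (by rw [h1, h2]; simp) h
      · obtain ⟨y, hy⟩ := ff_ne n D fin g _ h2
        refine ⟨y, ?_⟩
        have h2 := dvd_add hy (dvd_refl D)
        have h3 : c + n x - D - n y + D = c + n x - n y := by ring
        rwa [h3] at h2
    · exact ff_ne n D fin g _ h1
  · exact ff_ne n D fin g _ h

theorem FF_unique (hs : ∀ x x' y y', x ≠ x' → D ∣ (n x - n x') - (n y - n y') → x = y)
    (x y : X) (c : ℤ) (hDc : ¬ D ∣ c) (hx : FF n D fin g x c ≠ 1) (hy : FF n D fin g y c ≠ 1) :
    x = y := by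
  obtain ⟨x', hx'⟩ := FF_ne n D fin g x c hx
  obtain ⟨y', hy'⟩ := FF_ne n D fin g y c hy
  refine hs x x' y y' ?_ ?_
  · rintro rfl
    apply hDc
    simpa using hx'
  · have h2 := dvd_sub hx' hy'
    have h3 : c + n x - n x' - (c + n y - n y') = (n x - n x') - (n y - n y') := by ring
    rwa [h3] at h2

theorem FF_pow (hinj : ∀ x y, D ∣ n x - n y → x = y) (m : ℕ)
    (hord : ∀ x, fin x = true → g x ^ m = 1) (x : X) (c : ℤ) :
    FF n D fin g x c ^ ord m fin x = 1 := by
  by_cases hx : fin x = true
  · have h1 : ord m fin x = m := by simp [ord, hx]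
    rw [h1]
    by_cases h : FF n D fin g x c = 1
    · rw [h, one_pow]
    · obtain ⟨y, hy⟩ := FF_ne n D fin g x c h
      have hy2 : D ∣ c + n x - D - n y := by
        have h2 := dvd_sub hy (dvd_refl D)
        have h3 : c + n x - n y - D = c + n x - D - n y := by ring
        rwa [h3] at h2
      unfold FF
      rw [if_pos hx]
      rcases ff_cases n D fin g hinj y _ hy with h2 | ⟨h2, h2'⟩ <;>
        rcases ff_cases n D fin g hinj y _ hy2 with h3 | ⟨h3, h3'⟩
      · rw [h2, h3]; simp
      · rw [h2, h3', inv_one, mul_one]; exact hord y h3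
      · rw [h2', h3, one_mul, inv_pow, hord y h2, inv_one]
      · rw [h2', h3']; simp
  · have h1 : ord m fin x = 0 := by simp [ord, hx]
    rw [h1, pow_zero]

end ff

theorem exists_lam {K : Type} [Group K] {X : Type} [DecidableEq X] (n : X → ℤ) (D : ℤ) (hD : 0 < D)
    (fin : X → Bool) (g : X → K)
    (hinj : ∀ x y, D ∣ n x - n y → x = y)
    (hs : ∀ x x' y y', x ≠ x' → D ∣ (n x - n x') - (n y - n y') → x = y)
    (m : ℕ) (hord : ∀ x, fin x = true → g x ^ m = 1) (c : ℤ) :
    ∃ Λ : PP K m fin →* K, ∀ x, Λ (gt m fin g x) = FF n D fin g x c := by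
  by_cases hc : c = 0
  · subst hc
    exact ⟨MonoidHom.fst _ _, fun x => (FF_zero n D fin g hinj hD x).symm⟩
  · by_cases hDc : D ∣ c
    · exact ⟨(MonoidHom.fst _ _).comp (MonoidHom.snd _ _),
        fun x => (FF_dvd n D fin g hinj hD x c hc hDc).symm⟩
    · by_cases hex : ∃ x0, FF n D fin g x0 c ≠ 1
      · obtain ⟨x0, hx0⟩ := hex
        obtain ⟨h, hh⟩ := exists_powHom (ord m fin x0) (FF n D fin g x0 c)
          (FF_pow n D fin g hinj m hord x0 c)
        refine ⟨h.comp ((Pi.evalMonoidHom _ x0).comp ((MonoidHom.snd _ _).comp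
          (MonoidHom.snd _ _))), ?_⟩
        intro x
        show h ((Pi.mulSingle x (Multiplicative.ofAdd 1) :
          ∀ x : X, Multiplicative (ZMod (ord m fin x))) x0) = _
        by_cases hx : x0 = x
        · subst hx
          rw [Pi.mulSingle_eq_same, hh]
        · rw [Pi.mulSingle_eq_of_ne hx, map_one]
          by_contra hcon
          exact hx (FF_unique n D fin g hs x0 x c hDc hx0 (Ne.symm hcon))
      · push Not at hex
        exact ⟨1, fun x => (hex x).symm⟩

end Pool.Agent.Lib.MP_5335f7_al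
end

section

/-!
Embedding of a good group into a two generated group.
-/

namespace Pool.Agent.Lib.MP_5335f7_al

open scoped commutatorElement

theorem comm_base_top {N R : Type} [Group N] [Group R] (φ : R → N) (r : R) :
    ⁅Wr.base N R φ, Wr.top N R r⁆ = Wr.base N R (fun x => φ x * (φ (x * r))⁻¹) := by
  rw [commutatorElement_def]
  ext x <;> simp

/-- coverage of a subgroup of the wreath product -/
def cov {K : Type} [Group K] (T : Subgroup (Wr K (Multiplicative ℤ))) : Subgroup K where
  carrier := {s | ∃ τ ∈ T, τ.pt = 1 ∧ τ.fn 1 = s}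
  one_mem' := ⟨1, T.one_mem, rfl, rfl⟩
  mul_mem' := by
    rintro a b ⟨τ, h1, h2, h3⟩ ⟨σ, h4, h5, h6⟩
    refine ⟨τ * σ, T.mul_mem h1 h4, by simp [h2, h5], ?_⟩
    simp [h2, h3, h6]
  inv_mem' := by
    rintro a ⟨τ, h1, h2, h3⟩
    refine ⟨τ⁻¹, T.inv_mem h1, by simp [h2], ?_⟩
    simp [h2, h3]

theorem cov_commutator {K : Type} [Group K] (T T' : Subgroup (Wr K (Multiplicative ℤ))) :
    ⁅cov T, cov T'⁆ ≤ cov ⁅T, T'⁆ := by
  rw [Subgroup.commutator_le]
  rintro a ⟨τ, h1, h2, h3⟩ b ⟨σ, h4, h5, h6⟩
  refine ⟨⁅τ, σ⁆, Subgroup.commutator_mem_commutator h1 h4, ?_, ?_⟩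
  · simp [commutatorElement_def]
  · simp [commutatorElement_def, h2, h3, h5, h6]

theorem cov_mono {K : Type} [Group K] {T T' : Subgroup (Wr K (Multiplicative ℤ))} (h : T ≤ T') :
    cov T ≤ cov T' := by
  rintro a ⟨τ, h1, h2, h3⟩
  exact ⟨τ, h h1, h2, h3⟩

theorem cov_bot {K : Type} [Group K] : cov (⊥ : Subgroup (Wr K (Multiplicative ℤ))) = ⊥ := by
  rw [eq_bot_iff]
  rintro a ⟨τ, h1, h2, h3⟩
  rw [Subgroup.mem_bot] at h1 ⊢
  rw [← h3, h1]; rfl

theorem embed_of_good (l : ℕ) (G : Type) [Group G] (hG : Good l G) :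
    ∃ (H : Type) (_ : Group H) (a b : H) (φ : G →* H), Function.Injective φ ∧
      Subgroup.closure {a, b} = ⊤ ∧ derivedSeries H (l + 1) = ⊥ ∧
      ∀ k, derivedSeries H (k + 1) = ⊥ → derivedSeries G k = ⊥ := by
  obtain ⟨K, _, m, X, _, _, fin, g, ι, hm2, hK, hord, hι, hcl⟩ := hG
  obtain ⟨n, D, hD, hinj, hs, hiso⟩ := exists_sidon X
  let f := ff n D fin g
  let F := FF n D fin g
  choose Λc hΛc using exists_lam n D hD fin g hinj hs m hord
  let R := Multiplicative ℤ
  let Λ : PP K m fin →* (R → K) := MonoidHom.pi fun r => Λc (Multiplicative.toAdd r)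
  let W := Wr K R
  let t : W := Wr.top K R (Multiplicative.ofAdd 1)
  let fhat : W := Wr.base K R fun r => f (Multiplicative.toAdd r)
  let H : Subgroup W := Subgroup.closure {fhat, t}
  have hfH : fhat ∈ H := Subgroup.subset_closure (by simp)
  have htH : t ∈ H := Subgroup.subset_closure (by simp)
  have hconj : ∀ k : ℤ, Wr.base K R (fun r => f (Multiplicative.toAdd r + k)) ∈ H := by
    intro k
    have h1 : t ^ k * fhat * (t ^ k)⁻¹ ∈ H :=
      H.mul_mem (H.mul_mem (H.zpow_mem htH k) hfH) (H.inv_mem (H.zpow_mem htH k))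
    have h2 : t ^ k = Wr.top K R (Multiplicative.ofAdd k) := by
      show (Wr.top K R (Multiplicative.ofAdd 1)) ^ k = _
      rw [← map_zpow]
      congr 1
      rw [← ofAdd_zsmul]; simp
    rw [h2, Wr.top_conj_base] at h1
    exact h1
  have hFH : ∀ x, Wr.base K R (fun r => F x (Multiplicative.toAdd r)) ∈ H := by
    intro x
    by_cases hx : fin x = true
    · have h1 := H.mul_mem (hconj (n x)) (H.inv_mem (hconj (n x - D)))
      rw [← map_inv, ← map_mul] at h1
      have h2 : (fun r => F x (Multiplicative.toAdd r)) =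
          ((fun r => f (Multiplicative.toAdd r + n x)) *
            (fun r => f (Multiplicative.toAdd r + (n x - D)))⁻¹ : R → K) := by
        funext r
        simp only [F, FF, Pi.mul_apply, Pi.inv_apply, f]
        rw [if_pos hx, add_sub_assoc]
      rw [h2]; exact h1
    · have h2 : (fun r => F x (Multiplicative.toAdd r)) =
          ((fun r => f (Multiplicative.toAdd r + n x)) : R → K) := by
        funext r
        simp only [F, FF, f]
        rw [if_neg hx]
      rw [h2]; exact hconj (n x)
  have hΛ : ∀ y, Wr.base K R (Λ (ι y)) ∈ H := by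
    have h1 : Subgroup.closure (Set.range (gt m fin g)) ≤
        H.comap ((Wr.base K R).comp Λ) := by
      rw [Subgroup.closure_le]
      rintro _ ⟨x, rfl⟩
      show Wr.base K R (Λ (gt m fin g x)) ∈ H
      have h2 : Λ (gt m fin g x) = fun r => F x (Multiplicative.toAdd r) := by
        funext r
        exact hΛc _ x
      rw [h2]; exact hFH x
    intro y
    exact h1 (hcl y)
  let φ : G →* H := (((Wr.base K R).comp Λ).comp ι).codRestrict H hΛ
  have hφ : ∀ y, (φ y : W).fn 1 = (ι y).1 := by
    intro y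
    show Λc (Multiplicative.toAdd (1 : R)) (ι y) = _
    have h1 : ∀ z ∈ Subgroup.closure (Set.range (gt m fin g)),
        Λc (Multiplicative.toAdd (1 : R)) z = z.1 := by
      intro z hz
      induction hz using Subgroup.closure_induction with
      | mem z hz =>
        obtain ⟨x, rfl⟩ := hz
        rw [hΛc]
        exact FF_zero n D fin g hinj hD x
      | one => exact map_one _
      | mul a b _ _ ha hb => rw [map_mul, ha, hb]; rfl
      | inv a _ ha => rw [map_inv, ha]; rfl
    exact h1 _ (hcl y)
  refine ⟨H, inferInstance, ⟨fhat, hfH⟩, ⟨t, htH⟩, φ, ?_, ?_, ?_, ?_⟩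
  · rw [injective_iff_map_eq_one]
    intro y hy
    apply hι
    rw [← hφ, hy]
    rfl
  · have h1 := Subgroup.closure_closure_coe_preimage (k := ({fhat, t} : Set W))
    rw [← h1]
    congr 1
    ext ⟨z, hz⟩
    simp [Subtype.ext_iff]
  · have h1 : derivedSeries W (l + 1) = ⊥ :=
      Wr.derivedSeries_of_comm_top (fun a b => mul_comm a b) l hK
    exact derivedSeries_eq_bot_of_injective H.subtype H.subtype_injective _ h1
  · intro k hk
    let L : ℕ → Subgroup W := fun j => (derivedSeries H j).map H.subtype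
    have hgL : ∀ x, g x ∈ cov (L 1) := by
      intro x
      let τ : H := ⟨Wr.base K R (fun r => f (Multiplicative.toAdd r + n x)), hconj (n x)⟩
      let t' : H := ⟨t, htH⟩
      refine ⟨H.subtype ⁅τ, t'⁆, ⟨⁅τ, t'⁆, ?_, rfl⟩, ?_, ?_⟩
      · rw [derivedSeries_one]
        exact Subgroup.commutator_mem_commutator (Subgroup.mem_top _) (Subgroup.mem_top _)
      · rw [map_commutatorElement]
        show (⁅Wr.base K R (fun r => f (Multiplicative.toAdd r + n x)),
          Wr.top K R (Multiplicative.ofAdd 1)⁆).pt = 1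
        rw [comm_base_top]; rfl
      · rw [map_commutatorElement]
        show (⁅Wr.base K R (fun r => f (Multiplicative.toAdd r + n x)),
          Wr.top K R (Multiplicative.ofAdd 1)⁆).fn 1 = g x
        rw [comm_base_top]
        show f (0 + n x) * (f (0 + 1 + n x))⁻¹ = g x
        have h1 : f (n x) = g x := ff_of n D fin g hinj x _ (by simp) (fun _ => le_rfl)
        have h2 : f (1 + n x) = 1 := by
          apply ff_not
          intro y hy
          exfalso
          apply hiso x y
          have h3 : 1 + n x - n y = n x + 1 - n y := by ring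
          rwa [h3] at hy
        rw [zero_add, zero_add, h1, h2]; simp
    have key : ∀ j, (derivedSeries G j).map ((MonoidHom.fst K _).comp ι) ≤ cov (L (j + 1)) := by
      intro j
      induction j with
      | zero =>
        rintro _ ⟨y, _, rfl⟩
        have h1 : Subgroup.closure (Set.range (gt m fin g)) ≤
            (cov (L 1)).comap (MonoidHom.fst K _) := by
          rw [Subgroup.closure_le]
          rintro _ ⟨x, rfl⟩
          exact hgL x
        exact h1 (hcl y)
      | succ j ih =>
        rw [derivedSeries_succ, Subgroup.map_commutator]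
        refine (Subgroup.commutator_mono ih ih).trans ?_
        refine (cov_commutator _ _).trans ?_
        apply cov_mono
        show _ ≤ (derivedSeries H (j + 1 + 1)).map H.subtype
        rw [derivedSeries_succ H (j + 1), Subgroup.map_commutator]
    have h1 := key k
    have h2 : L (k + 1) = ⊥ := by
      show (derivedSeries H (k + 1)).map H.subtype = ⊥
      rw [hk, Subgroup.map_bot]
    rw [h2, cov_bot, le_bot_iff] at h1
    refine (Subgroup.map_eq_bot_iff_of_injective _ ?_).1 h1
    rw [injective_iff_map_eq_one]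
    intro y hy
    exact hι y hy

end Pool.Agent.Lib.MP_5335f7_al
end
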